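import Pool.Agent.U612.MR.Polar

/-!
# Abel type integral equations of the first kind: solution
-/

set_option autoImplicit false

open MeasureTheory Set Metric
open scoped ContDiff

namespace Pool.Agent.U612.MR

theorem parts {K : ℝ → ℝ → ℝ} (hK : ContDiff ℝ ∞ (Function.uncurry K)) {ψ ψ' : ℝ → ℝ}
    (hd : ∀ x, HasDerivAt ψ (ψ' x) x) (hc : Continuous ψ') (x T : ℝ) :
    ∫ σ in (0 : ℝ)..T, K x σ * ψ' (x - σ) = K x 0 * ψ x - K x T * ψ (x - T) +
      ∫ σ in (0 : ℝ)..T, d2 K x σ * ψ (x - σ) := by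
  have hv : ∀ σ : ℝ, HasDerivAt (fun σ => -ψ (x - σ)) (ψ' (x - σ)) σ := by
    intro σ
    have h1 : HasDerivAt (fun σ : ℝ => x - σ) (-1) σ := (hasDerivAt_id σ).const_sub x
    have h2 : HasDerivAt (fun σ : ℝ => ψ (x - σ)) (ψ' (x - σ) * (-1)) σ :=
      (hd (x - σ)).comp σ h1
    exact h2.neg.congr_deriv (by ring)
  have hKc : Continuous fun σ => d2 K x σ :=
    (contDiff_d2 hK).continuous.comp (by fun_prop : Continuous fun σ : ℝ => ((x, σ) : ℝ × ℝ))
  have := intervalIntegral.integral_mul_deriv_eq_deriv_mul (a := 0) (b := T)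
    (u := fun σ => K x σ) (v := fun σ => -ψ (x - σ)) (u' := fun σ => d2 K x σ)
    (v' := fun σ => ψ' (x - σ)) (fun σ _ => hasDerivAt_d2 hK x σ) (fun σ _ => hv σ)
    (hKc.intervalIntegrable _ _)
    ((hc.comp (by fun_prop : Continuous fun σ : ℝ => x - σ)).intervalIntegrable _ _)
  rw [this]
  simp only [mul_neg, intervalIntegral.integral_neg, sub_zero]
  ring

theorem deriv_zero {ψ : ℝ → ℝ} (hψ : ContDiff ℝ ∞ ψ) {a : ℝ} (h : ∀ x ≤ a, ψ x = 0) :
    ∀ x ≤ a, deriv ψ x = 0 := by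
  have h1 : ∀ x < a, deriv ψ x = 0 := by
    intro x hx
    have : ψ =ᶠ[nhds x] fun _ => 0 := by
      filter_upwards [Iio_mem_nhds hx] with y hy
      exact h y (le_of_lt hy)
    rw [this.deriv_eq, deriv_const]
  have hc : Continuous (deriv ψ) := hψ.continuous_deriv (by exact_mod_cast le_top)
  have h2 : closure (Iio a) ⊆ {x | deriv ψ x = 0} :=
    closure_minimal (fun x hx => h1 x hx) (isClosed_eq hc continuous_const)
  intro x hx
  rw [closure_Iio] at h2
  exact h2 hx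

/-- **Abel type integral equations of the first kind.** In terms of `u = x - z ^ 2` the left side is
the integral over `u < x` of `g(u) √(x - u) N(x, u)`. -/
theorem first_kind {N : ℝ → ℝ → ℝ} (hN : ContDiff ℝ ∞ (Function.uncurry N))
    (hNpos : ∀ x, 0 < N x x) {R : ℝ → ℝ} (hR : ContDiff ℝ ∞ R) {a b : ℝ} (hab : a ≤ b)
    (hRa : ∀ x ≤ a, R x = 0) :
    ∃ g : ℝ → ℝ, ContDiff ℝ ∞ g ∧ (∀ x ≤ a, g x = 0) ∧
      ∀ x ≤ b, ∫ z in (-√(b - a))..√(b - a), g (x - z ^ 2) * (z ^ 2 * N x (x - z ^ 2)) = R x := by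
  set Y := √(b - a) with hY
  have hY0 : 0 ≤ Y := Real.sqrt_nonneg _
  have hYY : -Y ≤ Y := by linarith
  set T := b - a with hT
  have hT0 : 0 ≤ T := by linarith
  let P : ℝ → ℝ → ℝ := fun x τ => τ * nh N x τ
  have hP : ContDiff ℝ ∞ (Function.uncurry P) := by
    have h1 : ContDiff ℝ ∞ fun p : ℝ × ℝ => nh N p.1 p.2 := contDiff_nh hN
    exact contDiff_snd.mul h1
  have hP1 := contDiff_d2 hP
  have hP2 := contDiff_d2 hP1
  have hP0 : ∀ x, P x 0 = 0 := fun x => zero_mul _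
  have hP10 : ∀ x, d2 P x 0 = nh N x 0 := by
    intro x
    have h1 := hasDerivAt_d2 hP x 0
    have h2 : HasDerivAt (fun τ : ℝ => τ * nh N x τ) (1 * nh N x 0 + 0 * d2 (nh N) x 0) 0 :=
      (hasDerivAt_id (0 : ℝ)).mul (hasDerivAt_d2 (contDiff_nh hN) x 0)
    have h3 := h1.unique h2
    rw [h3]; ring
  let D : ℝ → ℝ := fun x => nh N x 0
  have hD : ContDiff ℝ ∞ D := (contDiff_nh hN).comp (contDiff_id.prodMk contDiff_const)
  have hDpos : ∀ x, 0 < D x := fun x => nh_zero_pos (hNpos x)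
  let K : ℝ → ℝ → ℝ := fun x τ => -(d2 (d2 P) x τ / D x)
  have hK : ContDiff ℝ ∞ (Function.uncurry K) := by
    have h1 : ContDiff ℝ ∞ fun p : ℝ × ℝ => d2 (d2 P) p.1 p.2 := hP2
    have h2 : ContDiff ℝ ∞ fun p : ℝ × ℝ => D p.1 := hD.comp contDiff_fst
    exact (h1.div h2 fun p => (hDpos p.1).ne').neg
  obtain ⟨ψ, hψ, hψa, hψe⟩ := volterra hK (s := fun x => R x / D x)
    (hR.div hD fun x => (hDpos x).ne') hab (fun x hx => by
      show R x / D x = 0
      rw [hRa x hx, zero_div])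
  have hψ1 : ContDiff ℝ ∞ (deriv ψ) := by
    have := (contDiff_infty_iff_deriv (𝕜 := ℝ) (f := ψ)).1 hψ
    exact this.2
  have hψ2 : ContDiff ℝ ∞ (deriv (deriv ψ)) := by
    have := (contDiff_infty_iff_deriv (𝕜 := ℝ) (f := deriv ψ)).1 hψ1
    exact this.2
  have hd0 : ∀ x, HasDerivAt ψ (deriv ψ x) x := fun x =>
    (hψ.differentiable (by simp) x).hasDerivAt
  have hd1 : ∀ x, HasDerivAt (deriv ψ) (deriv (deriv ψ) x) x := fun x =>
    (hψ1.differentiable (by simp) x).hasDerivAt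
  have hψ1a := deriv_zero hψ hψa
  have hφa := deriv_zero hψ1 hψ1a
  set φ := deriv (deriv ψ) with hφ
  refine ⟨fun s => ∫ y in (-Y)..Y, φ (s - y ^ 2), ?_, ?_, ?_⟩
  · have h1 : ContDiff ℝ ∞ (Function.uncurry fun (s y : ℝ) => φ (s - y ^ 2)) :=
      hψ2.comp (contDiff_fst.sub (contDiff_snd.pow 2))
    exact contDiff_integral (P := ℝ) (n := ⊤) h1 (-Y) Y hYY
  · intro s hs
    have : (fun y : ℝ => φ (s - y ^ 2)) = fun _ => 0 := by
      funext y
      exact hφa _ (by nlinarith [sq_nonneg y])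
    simp only [this, intervalIntegral.integral_zero]
  · intro x hx
    have h1 := polar_identity hN hψ2.continuous hab hφa hx
    rw [← hY] at h1
    rw [h1]
    have h2 : ∫ τ in (0 : ℝ)..(b - a), φ (x - τ) * (τ * nh N x τ) =
        ∫ τ in (0 : ℝ)..T, P x τ * φ (x - τ) := by
      congr 1
      funext τ
      simp only [P]; ring
    rw [h2, parts hP hd1 hψ2.continuous x T, hP0, hψ1a (x - T) (by linarith),
      parts hP1 hd0 hψ1.continuous x T, hP10, hψa (x - T) (by linarith)]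
    have h3 := hψe x hx
    have h4 : ∫ σ in (0 : ℝ)..T, K x σ * ψ (x - σ) =
        -(1 / D x) * ∫ σ in (0 : ℝ)..T, d2 (d2 P) x σ * ψ (x - σ) := by
      rw [← intervalIntegral.integral_const_mul]
      congr 1
      funext σ
      simp only [K]; ring
    rw [h4] at h3
    have h5 := (hDpos x).ne'
    have h6 : D x = nh N x 0 := rfl
    rw [← h6, h3]
    field_simp
    ring

end Pool.Agent.U612.MR
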