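import Pool.Agent.U612.MR.First

/-!
# Integrals of radial functions over circles
-/

set_option autoImplicit false

open MeasureTheory Set Metric Complex
open scoped ContDiff Real

namespace Pool.Agent.U612.MR

/-- Up to a factor, the integral over the circle with centre at distance `ρ` from the origin and
radius `r` of the primitive of `G` at the square of the distance from the origin. -/
noncomputable def cir (G : ℝ → ℝ) (ρ r : ℝ) : ℝ :=
  ∫ β in (-π)..π, G (ρ ^ 2 + r ^ 2 + 2 * ρ * r * Real.cos β) * Real.sin β ^ 2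

theorem cir_eq {g : ℝ → ℝ} (hg : Continuous g) {a b ρ r : ℝ} (hρ : 0 < ρ) (hr : 0 < r)
    (hab : a ≤ b) (hga : ∀ u ≤ a, g u = 0) (hb : (ρ + r) ^ 2 ≤ b) (hm : (ρ - r) ^ 2 ≤ a) :
    cir g ρ r = 2 / (2 * ρ * r) ^ 2 * ∫ z in (-√(b - a))..√(b - a),
      g ((ρ + r) ^ 2 - z ^ 2) * (z ^ 2 * √((ρ + r) ^ 2 - z ^ 2 - (ρ - r) ^ 2)) := by
  set w := √(4 * ρ * r) with hw
  have hw0 : 0 ≤ w := Real.sqrt_nonneg _
  have hw2 : w ^ 2 = 4 * ρ * r := Real.sq_sqrt (by positivity)
  let f : ℝ → ℝ := fun z => g ((ρ + r) ^ 2 - z ^ 2) * (z ^ 2 * √((ρ + r) ^ 2 - z ^ 2 - (ρ - r) ^ 2))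
  have hf : Continuous f := by
    have h1 : Continuous fun z : ℝ => g ((ρ + r) ^ 2 - z ^ 2) := hg.comp (by fun_prop)
    exact h1.mul (by fun_prop)
  have hall : ∀ W : ℝ, 0 ≤ W → (ρ + r) ^ 2 - a ≤ W ^ 2 → ∫ z in (-W)..W, f z = ∫ z, f z := by
    intro W hW h
    rw [intervalIntegral.integral_of_le (by linarith)]
    apply setIntegral_eq_integral_of_forall_compl_eq_zero
    intro z hz
    have h1 : W ^ 2 ≤ z ^ 2 := by
      rw [mem_Ioc, not_and_or, not_lt, not_le] at hz
      rcases hz with hz | hz <;> nlinarith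
    simp only [f, hga _ (by linarith : (ρ + r) ^ 2 - z ^ 2 ≤ a), zero_mul]
  have hY : ∫ z in (-√(b - a))..√(b - a), f z = ∫ z in (-w)..w, f z := by
    rw [hall _ (Real.sqrt_nonneg _) (by rw [Real.sq_sqrt (by linarith)]; linarith),
      hall w hw0 (by rw [hw2]; nlinarith)]
  change _ = _ * ∫ z in (-√(b - a))..√(b - a), f z
  rw [hY]
  have hsub := intervalIntegral.integral_comp_mul_deriv (a := -π) (b := π)
    (f := fun β : ℝ => w * Real.sin (β / 2)) (f' := fun β => w * (Real.cos (β / 2) * (1 / 2)))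
    (g := f) (fun β _ => by
      have h1 : HasDerivAt (fun β : ℝ => β / 2) (1 / 2) β := (hasDerivAt_id β).div_const 2
      exact ((Real.hasDerivAt_sin (β / 2)).comp β h1).const_mul w) (by fun_prop) hf
  have e1 : w * Real.sin (-π / 2) = -w := by
    rw [neg_div, Real.sin_neg, Real.sin_pi_div_two]; ring
  have e2 : w * Real.sin (π / 2) = w := by rw [Real.sin_pi_div_two]; ring
  simp only [e1, e2] at hsub
  rw [← hsub, cir, ← intervalIntegral.integral_const_mul]
  apply intervalIntegral.integral_congr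
  intro β hβ
  rw [uIcc_of_le (by linarith [Real.pi_pos])] at hβ
  have hcos : 0 ≤ Real.cos (β / 2) := Real.cos_nonneg_of_mem_Icc ⟨by linarith [hβ.1], by linarith [hβ.2]⟩
  have hs := Real.sin_sq_add_cos_sq (β / 2)
  have hsin : Real.sin β = 2 * Real.sin (β / 2) * Real.cos (β / 2) := by
    rw [← Real.sin_two_mul]; congr 1; ring
  have hcosβ : Real.cos β = 1 - 2 * Real.sin (β / 2) ^ 2 := by
    have : Real.cos β = 2 * Real.cos (β / 2) ^ 2 - 1 := by
      rw [← Real.cos_two_mul]; congr 1; ring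
    rw [this]; linarith
  have harg : (ρ + r) ^ 2 - (w * Real.sin (β / 2)) ^ 2 =
      ρ ^ 2 + r ^ 2 + 2 * ρ * r * Real.cos β := by
    rw [mul_pow, hw2, hcosβ]; ring
  have hsq : √((ρ + r) ^ 2 - (w * Real.sin (β / 2)) ^ 2 - (ρ - r) ^ 2) =
      w * Real.cos (β / 2) := by
    rw [Real.sqrt_eq_iff_mul_self_eq (by
      have : (ρ + r) ^ 2 - (w * Real.sin (β / 2)) ^ 2 - (ρ - r) ^ 2 =
        (w * Real.cos (β / 2)) ^ 2 := by
        rw [mul_pow, mul_pow, hw2]; linear_combination (-(4 * ρ * r)) * hs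
      rw [this]; positivity) (by positivity)]
    rw [mul_pow, hw2]
    have : w * Real.cos (β / 2) * (w * Real.cos (β / 2)) = w ^ 2 * Real.cos (β / 2) ^ 2 := by ring
    rw [this, hw2]; linear_combination (-(4 * ρ * r)) * hs
  simp only [Function.comp, f]
  rw [harg] at hsq ⊢
  rw [hsq, hsin]
  have hne : ρ * r ≠ 0 := by positivity
  have e3 : 2 / (2 * ρ * r) ^ 2 * (g (ρ ^ 2 + r ^ 2 + 2 * ρ * r * Real.cos β) *
      ((w * Real.sin (β / 2)) ^ 2 * (w * Real.cos (β / 2))) *
      (w * (Real.cos (β / 2) * (1 / 2)))) = (w ^ 2) ^ 2 / (2 * ρ * r) ^ 2 *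
      (g (ρ ^ 2 + r ^ 2 + 2 * ρ * r * Real.cos β) *
        (Real.sin (β / 2) ^ 2 * Real.cos (β / 2) ^ 2)) := by ring
  rw [e3, hw2]
  have hρ0 := hρ.ne'
  have hr0 := hr.ne'
  field_simp
  ring

theorem norm_sq_circle (z : ℂ) (r θ : ℝ) :
    ‖circleMap z r θ‖ ^ 2 = ‖z‖ ^ 2 + r ^ 2 + 2 * ‖z‖ * r * Real.cos (θ - z.arg) := by
  have hz : z = ‖z‖ * cexp (z.arg * I) := (Complex.norm_mul_exp_arg_mul_I z).symm
  have h1 : circleMap z r θ = ((‖z‖ * Real.cos z.arg + r * Real.cos θ : ℝ) : ℂ) +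
      ((‖z‖ * Real.sin z.arg + r * Real.sin θ : ℝ) : ℂ) * I := by
    rw [circleMap]
    nth_rewrite 1 [hz]
    rw [Complex.exp_mul_I, Complex.exp_mul_I]
    push_cast
    ring
  rw [← Complex.normSq_eq_norm_sq, h1, Complex.normSq_add_mul_I, Real.cos_sub]
  have h2 := Real.sin_sq_add_cos_sq z.arg
  have h3 := Real.sin_sq_add_cos_sq θ
  linear_combination (‖z‖ ^ 2) * h2 + r ^ 2 * h3

/-- primitive -/
noncomputable def pr (G : ℝ → ℝ) (u : ℝ) : ℝ := ∫ t in (0 : ℝ)..u, G t

theorem hasDerivAt_pr {G : ℝ → ℝ} (hG : Continuous G) (u : ℝ) : HasDerivAt (pr G) (G u) u :=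
  intervalIntegral.integral_hasDerivAt_right (hG.intervalIntegrable _ _)
    hG.stronglyMeasurable.stronglyMeasurableAtFilter hG.continuousAt

theorem contDiff_pr {G : ℝ → ℝ} (hG : ContDiff ℝ ∞ G) : ContDiff ℝ ∞ (pr G) := by
  rw [contDiff_infty_iff_deriv]
  refine ⟨fun u => (hasDerivAt_pr hG.continuous u).differentiableAt, ?_⟩
  rw [show deriv (pr G) = G from funext fun u => (hasDerivAt_pr hG.continuous u).deriv]
  exact hG

theorem circle_eq {G : ℝ → ℝ} (hG : Continuous G) (z : ℂ) (r : ℝ) :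
    (∮ ζ in C(z, r), ((pr G (‖ζ‖ ^ 2) : ℝ) : ℂ)) =
      (r * cexp (z.arg * I) * I) * ((2 * ‖z‖ * r * cir G ‖z‖ r : ℝ) : ℂ) := by
  have hprc : Continuous (pr G) := continuous_iff_continuousAt.2 fun u =>
    (hasDerivAt_pr hG u).continuousAt
  set c := ‖z‖ ^ 2 + r ^ 2 with hc
  set d := 2 * ‖z‖ * r with hd
  set φ := z.arg with hφ
  let k : ℝ → ℂ := fun θ => r * cexp (θ * I) * I * ((pr G (c + d * Real.cos (θ - φ)) : ℝ) : ℂ)
  have h0 : (∮ ζ in C(z, r), ((pr G (‖ζ‖ ^ 2) : ℝ) : ℂ)) = ∫ θ in (0 : ℝ)..(2 * π), k θ := by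
    rw [circleIntegral]
    congr 1
    funext θ
    rw [deriv_circleMap, norm_sq_circle, circleMap_zero, smul_eq_mul]
  have hper : Function.Periodic k (2 * π) := by
    intro θ
    simp only [k]
    have e1 : cexp (((θ + 2 * π : ℝ) : ℂ) * I) = cexp (θ * I) := by
      push_cast
      rw [add_mul, Complex.exp_add, Complex.exp_two_pi_mul_I, mul_one]
    have e2 : Real.cos (θ + 2 * π - φ) = Real.cos (θ - φ) := by
      rw [show θ + 2 * π - φ = (θ - φ) + 2 * π by ring, Real.cos_add_two_pi]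
    rw [e1, e2]
  have h1 : ∫ θ in (0 : ℝ)..(2 * π), k θ = ∫ θ in (-π + φ)..(π + φ), k θ := by
    have := hper.intervalIntegral_add_eq 0 (-π + φ)
    rw [zero_add, show -π + φ + 2 * π = π + φ by ring] at this
    exact this
  have h2 : ∫ θ in (-π + φ)..(π + φ), k θ = ∫ β in (-π)..π, k (β + φ) :=
    (intervalIntegral.integral_comp_add_right k φ).symm
  let h : ℝ → ℝ := fun β => pr G (c + d * Real.cos β)
  have hh : Continuous h := hprc.comp (by fun_prop)
  have h3 : ∀ β : ℝ, k (β + φ) = (r * cexp (φ * I) * I) *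
      (((Real.cos β * h β : ℝ) : ℂ) + ((Real.sin β * h β : ℝ) : ℂ) * I) := by
    intro β
    simp only [k, h, add_sub_cancel_right]
    push_cast
    rw [add_mul, Complex.exp_add, Complex.exp_mul_I (β : ℂ)]
    ring
  have hI1 : IntervalIntegrable (fun β : ℝ => ((Real.cos β * h β : ℝ) : ℂ)) volume (-π) π :=
    (Complex.continuous_ofReal.comp (Real.continuous_cos.mul hh)).intervalIntegrable _ _
  have hI2 : IntervalIntegrable (fun β : ℝ => ((Real.sin β * h β : ℝ) : ℂ) * I) volume (-π) π :=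
    ((Complex.continuous_ofReal.comp (Real.continuous_sin.mul hh)).mul
      continuous_const).intervalIntegrable _ _
  rw [h0, h1, h2]
  simp only [h3]
  rw [intervalIntegral.integral_const_mul, intervalIntegral.integral_add hI1 hI2,
    intervalIntegral.integral_mul_const, intervalIntegral.integral_ofReal,
    intervalIntegral.integral_ofReal]
  have hodd : ∫ β in (-π)..π, Real.sin β * h β = 0 := by
    have e1 := intervalIntegral.integral_comp_neg (a := -π) (b := π) (fun β => Real.sin β * h β)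
    rw [neg_neg] at e1
    have e2 : (fun β => Real.sin (-β) * h (-β)) = fun β => -(Real.sin β * h β) := by
      funext β
      simp only [h, Real.sin_neg, Real.cos_neg]
      ring
    rw [e2, intervalIntegral.integral_neg] at e1
    linarith
  have hev : ∫ β in (-π)..π, Real.cos β * h β = d * cir G ‖z‖ r := by
    have hd1 : ∀ β : ℝ, HasDerivAt h (G (c + d * Real.cos β) * (d * (-Real.sin β))) β := by
      intro β
      have e1 : HasDerivAt (fun β : ℝ => c + d * Real.cos β) (d * (-Real.sin β)) β :=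
        ((Real.hasDerivAt_cos β).const_mul d).const_add c
      exact (hasDerivAt_pr hG _).comp β e1
    have hGc : Continuous fun β : ℝ => G (c + d * Real.cos β) := hG.comp (by fun_prop)
    have e2 := intervalIntegral.integral_deriv_mul_eq_sub (a := -π) (b := π) (u := Real.sin)
      (v := h) (u' := Real.cos) (v' := fun β => G (c + d * Real.cos β) * (d * (-Real.sin β)))
      (fun β _ => Real.hasDerivAt_sin β) (fun β _ => hd1 β)
      (Real.continuous_cos.intervalIntegrable _ _)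
      ((hGc.mul (by fun_prop)).intervalIntegrable _ _)
    have hJ1 : IntervalIntegrable (fun β : ℝ => Real.cos β * h β) volume (-π) π :=
      (Real.continuous_cos.mul hh).intervalIntegrable _ _
    have hJ2 : IntervalIntegrable (fun β : ℝ =>
        Real.sin β * (G (c + d * Real.cos β) * (d * -Real.sin β))) volume (-π) π :=
      (Real.continuous_sin.mul (hGc.mul (by fun_prop :
        Continuous fun β : ℝ => d * -Real.sin β))).intervalIntegrable _ _
    rw [Real.sin_neg, Real.sin_pi, neg_zero, zero_mul, zero_mul, sub_zero,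
      intervalIntegral.integral_add hJ1 hJ2] at e2
    have e3 : ∫ β in (-π)..π, Real.sin β * (G (c + d * Real.cos β) * (d * (-Real.sin β))) =
        -(d * cir G ‖z‖ r) := by
      rw [cir, ← intervalIntegral.integral_const_mul, ← intervalIntegral.integral_neg]
      congr 1
      funext β
      rw [← hc, ← hd]; ring
    rw [e3] at e2
    linarith
  rw [hodd, hev]
  simp

end Pool.Agent.U612.MR
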