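import Pool.Agent.U612.MR.Step

/-!
# A smooth radial function whose integrals over the circles `C(z, α (1 - |z|))` vanish
-/

set_option autoImplicit false

open MeasureTheory Set Metric Complex
open scoped ContDiff Real

namespace Pool.Agent.U612.MR

theorem not_differentiableAt {G : ℝ → ℝ} (hG : Continuous G) {s : ℝ} (hs : 0 < s)
    (h : G (s ^ 2) ≠ 0) {f : ℂ → ℂ}
    (hf : f =ᶠ[nhds (s : ℂ)] fun ζ => ((pr G (‖ζ‖ ^ 2) : ℝ) : ℂ)) :
    ¬ DifferentiableAt ℂ f (s : ℂ) := by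
  intro hd
  have hd' : DifferentiableAt ℂ (fun ζ : ℂ => ((pr G (‖ζ‖ ^ 2) : ℝ) : ℂ)) (s : ℂ) :=
    hd.congr_of_eventuallyEq hf.symm
  obtain ⟨f', hf'⟩ : ∃ f', HasDerivAt (fun ζ : ℂ => ((pr G (‖ζ‖ ^ 2) : ℝ) : ℂ)) f' (s : ℂ) :=
    ⟨_, hd'.hasDerivAt⟩
  -- along the real direction
  have h1 : HasDerivAt (fun t : ℝ => ((pr G (t ^ 2) : ℝ) : ℂ)) f' s := by
    have := hf'.comp_ofReal
    refine this.congr_of_eventuallyEq (Filter.Eventually.of_forall fun t => ?_)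
    simp
  have h2 : HasDerivAt (fun t : ℝ => ((pr G (t ^ 2) : ℝ) : ℂ)) ((G (s ^ 2) * (2 * s) : ℝ) : ℂ) s := by
    have h3 : HasDerivAt (fun t : ℝ => t ^ 2) (2 * s) s := by simpa using hasDerivAt_pow 2 s
    exact ((hasDerivAt_pr hG (s ^ 2)).comp s h3).ofReal_comp
  have h4 := h1.unique h2
  -- along the imaginary direction
  have h5 : HasDerivAt (fun t : ℝ => (s : ℂ) + t * I) I 0 := by
    have := ((hasDerivAt_id (0 : ℝ)).ofReal_comp.mul_const I).const_add (s : ℂ)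
    simpa using this
  have h6 : HasDerivAt (fun t : ℝ => ((pr G (s ^ 2 + t ^ 2) : ℝ) : ℂ)) (f' * I) 0 := by
    have e0 : (s : ℂ) = (fun t : ℝ => (s : ℂ) + t * I) 0 := by simp
    have hf'' := hf'
    rw [e0] at hf''
    have := hf''.comp (0 : ℝ) h5
    refine this.congr_of_eventuallyEq (Filter.Eventually.of_forall fun t => ?_)
    have e1 : ‖(s : ℂ) + t * I‖ ^ 2 = s ^ 2 + t ^ 2 := by
      rw [← Complex.normSq_eq_norm_sq, Complex.normSq_add_mul_I]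
    simp only [Function.comp, e1]
  have h7 : HasDerivAt (fun t : ℝ => ((pr G (s ^ 2 + t ^ 2) : ℝ) : ℂ)) 0 0 := by
    have h3 : HasDerivAt (fun t : ℝ => s ^ 2 + t ^ 2) 0 (0 : ℝ) := by
      have := (hasDerivAt_pow 2 (0 : ℝ)).const_add (s ^ 2)
      simpa using this
    have := ((hasDerivAt_pr hG (s ^ 2 + 0 ^ 2)).comp (0 : ℝ) h3).ofReal_comp
    simpa using this
  have h8 := h6.unique h7
  have h9 : f' = 0 := by simpa using h8
  rw [h9] at h4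
  have h10 : G (s ^ 2) * (2 * s) = 0 := by exact_mod_cast h4.symm
  rcases mul_eq_zero.1 h10 with h11 | h11
  · exact h h11
  · linarith

/-- the distances up to which the integrals vanish -/
noncomputable def rn (α : ℝ) (n : ℕ) : ℝ := 1 - (1 - α / (2 * (1 + α))) / (1 + α) ^ n

section
variable {α : ℝ} (hα : 0 < α)
include hα

theorem rn_lt (n : ℕ) : rn α n < 1 := by
  rw [rn]
  have h1 : α / (2 * (1 + α)) < 1 := by rw [div_lt_one (by positivity)]; linarith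
  have : 0 < (1 - α / (2 * (1 + α))) / (1 + α) ^ n := div_pos (by linarith) (by positivity)
  linarith

theorem rn_succ (n : ℕ) : (1 + α) * (1 - rn α (n + 1)) = 1 - rn α n := by
  simp only [rn, pow_succ]
  field_simp
  ring

theorem rn_mono (n : ℕ) : rn α n ≤ rn α (n + 1) := by
  have h1 := rn_succ hα n
  have h2 := rn_lt hα (n + 1)
  nlinarith

theorem rn_pos (n : ℕ) : 0 < rn α n := by
  induction n with
  | zero =>
    simp only [rn, pow_zero, div_one]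
    have : 0 < α / (2 * (1 + α)) := by positivity
    linarith
  | succ n ih => exact ih.trans_le (rn_mono hα n)

theorem exists_rn {ρ : ℝ} (hρ : ρ < 1) : ∃ n, ρ < rn α n := by
  have h1 : Filter.Tendsto (fun n : ℕ => (1 - α / (2 * (1 + α))) / (1 + α) ^ n) Filter.atTop
      (nhds 0) := by
    have h2 := (tendsto_pow_atTop_nhds_zero_of_lt_one (r := (1 + α)⁻¹) (by positivity)
      (inv_lt_one_of_one_lt₀ (by linarith))).const_mul (1 - α / (2 * (1 + α)))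
    rw [mul_zero] at h2
    refine h2.congr fun n => ?_
    rw [inv_pow]
    exact (div_eq_mul_inv _ _).symm
  obtain ⟨n, hn⟩ := (h1.eventually (gt_mem_nhds (show 0 < 1 - ρ by linarith))).exists
  exact ⟨n, by rw [rn]; linarith⟩

theorem rn_gap (n : ℕ) : ∀ ρ ∈ Icc (rn α n) (rn α (n + 1)),
    (ρ - α * (1 - ρ)) ^ 2 < (rn α n + α * (1 - rn α n)) ^ 2 := by
  intro ρ hρ
  have h1 := rn_succ hα n
  have h2 := rn_lt hα n
  have h3 := rn_pos hα n
  apply sq_lt_sq'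
  · nlinarith [hρ.1]
  · nlinarith [hρ.2, mul_pos hα (by linarith : 0 < 1 - rn α n)]

end

theorem main {α : ℝ} (hα : 0 < α) (hα1 : α < 1) :
    ∃ (f : ℂ → ℂ) (H : ℝ → ℝ), (∀ ζ, f ζ = (H ‖ζ‖ : ℂ)) ∧ ContDiffOn ℝ ∞ f (ball 0 1) ∧
      (∀ z ∈ ball (0 : ℂ) 1, ∮ ζ in C(z, α * (1 - ‖z‖)), f ζ = 0) ∧
      ¬ DifferentiableOn ℂ f (ball 0 1) := by
  classical
  let X : ℕ → ℝ := fun n => (rn α n + α * (1 - rn α n)) ^ 2
  have hX : ∀ ρ : ℝ, (ρ + α * (1 - ρ)) = α + (1 - α) * ρ := fun ρ => by ring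
  have hXmono : ∀ ρ ρ' : ℝ, 0 ≤ ρ → ρ ≤ ρ' → (ρ + α * (1 - ρ)) ^ 2 ≤ (ρ' + α * (1 - ρ')) ^ 2 := by
    intro ρ ρ' h0 h1
    rw [hX, hX]
    have h3 : (1 - α) * ρ ≤ (1 - α) * ρ' := mul_le_mul_of_nonneg_left h1 (by linarith)
    have h4 : 0 ≤ (1 - α) * ρ := mul_nonneg (by linarith) h0
    nlinarith
  have hXm : Monotone X := monotone_nat_of_le_succ fun n =>
    hXmono _ _ (rn_pos hα n).le (rn_mono hα n)
  -- the first function
  let bump : ContDiffBump (α ^ 2 / 8 : ℝ) := ⟨α ^ 2 / 32, α ^ 2 / 16, by positivity, by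
    have : 0 < α ^ 2 := by positivity
    linarith⟩
  let G0 : ℝ → ℝ := fun u => bump u
  have hG0 : ContDiff ℝ ∞ G0 := bump.contDiff
  have hG0z : ∀ u, α ^ 2 / 4 ≤ u → G0 u = 0 := by
    intro u hu
    apply bump.zero_of_le_dist
    show α ^ 2 / 16 ≤ dist u (α ^ 2 / 8)
    rw [Real.dist_eq]
    have : 0 < α ^ 2 := by positivity
    exact le_trans (by linarith) (le_abs_self _)
  have hG01 : G0 (α ^ 2 / 8) = 1 := by
    apply bump.one_of_mem_closedBall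
    rw [mem_closedBall, dist_self]
    show 0 ≤ α ^ 2 / 32
    positivity
  let P : ℕ → (ℝ → ℝ) → Prop := fun n G => ContDiff ℝ ∞ G ∧
    ∀ ρ, 0 ≤ ρ → ρ ≤ rn α n → cir G ρ (α * (1 - ρ)) = 0
  have hP0 : P 0 G0 := by
    refine ⟨hG0, fun ρ h0 h1 => cir_zero fun β => hG0z _ ?_⟩
    have h2 : (1 + α) * ρ ≤ α / 2 := by
      have h3 : rn α 0 = α / (2 * (1 + α)) := by simp [rn]
      rw [h3, le_div_iff₀ (by positivity)] at h1
      linarith
    have hρ1 : ρ < 1 := h1.trans_lt (rn_lt hα 0)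
    refine le_trans ?_ (le_arg h0 (mul_nonneg hα.le (by linarith)) β)
    have h4 : α / 2 ≤ α - (1 + α) * ρ := by linarith
    have h5 : (ρ - α * (1 - ρ)) ^ 2 = (α - (1 + α) * ρ) ^ 2 := by ring
    rw [h5]
    have h6 : 0 ≤ α / 2 := by positivity
    nlinarith
  have hstep : ∀ (n : ℕ) (G : {G : ℝ → ℝ // P n G}), ∃ G' : {G : ℝ → ℝ // P (n + 1) G},
      ∀ u ≤ X n, G'.1 u = G.1 u := by
    intro n G
    obtain ⟨G', h1, h2, h3⟩ := step hα hα1 (rn_pos hα n) (rn_mono hα n) (rn_lt hα (n + 1))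
      (rn_gap hα n) G.2.1 G.2.2
    exact ⟨⟨G', h1, h2⟩, h3⟩
  choose F hF using hstep
  let S : (n : ℕ) → {G : ℝ → ℝ // P n G} := fun n => Nat.rec ⟨G0, hP0⟩ (fun n G => F n G) n
  have hS : ∀ n, ∀ u ≤ X n, (S (n + 1)).1 u = (S n).1 u := fun n u hu => hF n (S n) u hu
  have hS' : ∀ k n, k ≤ n → ∀ u ≤ X k, (S n).1 u = (S k).1 u := by
    intro k n hkn
    induction n, hkn using Nat.le_induction with
    | base => intro u _; rfl
    | succ n hkn ih => intro u hu; rw [hS n u (hu.trans (hXm hkn)), ih u hu]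
  let Gi : ℝ → ℝ := fun u => if h : ∃ n, u ≤ X n then (S (Nat.find h)).1 u else 0
  have hGi : ∀ n, ∀ u ≤ X n, Gi u = (S n).1 u := by
    intro n u hu
    have h : ∃ n, u ≤ X n := ⟨n, hu⟩
    simp only [Gi, dif_pos h]
    exact (hS' _ _ (Nat.find_min' h hu) u (Nat.find_spec h)).symm
  have hpr : ∀ n, ∀ v, 0 ≤ v → v ≤ X n → pr Gi v = pr (S n).1 v := by
    intro n v hv hvX
    apply intervalIntegral.integral_congr
    intro u hu
    rw [uIcc_of_le hv] at hu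
    exact hGi n u (hu.2.trans hvX)
  let f : ℂ → ℂ := fun ζ => ((pr Gi (‖ζ‖ ^ 2) : ℝ) : ℂ)
  have hf : ∀ n, ∀ ζ : ℂ, ‖ζ‖ ^ 2 ≤ X n → f ζ = ((pr (S n).1 (‖ζ‖ ^ 2) : ℝ) : ℂ) := by
    intro n ζ h
    simp only [f, hpr n _ (by positivity) h]
  have hloc : ∀ ζ ∈ ball (0 : ℂ) 1, ∃ n, ‖ζ‖ ^ 2 < X n := by
    intro ζ hζ
    rw [mem_ball_zero_iff] at hζ
    obtain ⟨n, hn⟩ := exists_rn hα hζ
    refine ⟨n, ?_⟩
    have h1 := norm_nonneg ζ
    have h2 : 0 < α * (1 - rn α n) := mul_pos hα (by linarith [rn_lt hα n])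
    show ‖ζ‖ ^ 2 < (rn α n + α * (1 - rn α n)) ^ 2
    nlinarith
  have hnear : ∀ n, ∀ ζ : ℂ, ‖ζ‖ ^ 2 < X n →
      f =ᶠ[nhds ζ] fun ζ => ((pr (S n).1 (‖ζ‖ ^ 2) : ℝ) : ℂ) := by
    intro n ζ h
    have h1 : ∀ᶠ ξ : ℂ in nhds ζ, ‖ξ‖ ^ 2 < X n :=
      (continuous_norm.pow 2).continuousAt.eventually (gt_mem_nhds h)
    filter_upwards [h1] with ξ hξ
    exact hf n ξ hξ.le
  refine ⟨f, fun s => pr Gi (s ^ 2), fun ζ => rfl, ?_, ?_, ?_⟩
  · intro ζ hζ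
    obtain ⟨n, hn⟩ := hloc ζ hζ
    have h1 : ContDiff ℝ ∞ fun ζ : ℂ => ((pr (S n).1 (‖ζ‖ ^ 2) : ℝ) : ℂ) :=
      Complex.ofRealCLM.contDiff.comp ((contDiff_pr (S n).2.1).comp (contDiff_norm_sq ℝ))
    exact (h1.contDiffAt.congr_of_eventuallyEq (hnear n ζ hn)).contDiffWithinAt
  · intro z hz
    rw [mem_ball_zero_iff] at hz
    obtain ⟨n, hn⟩ := exists_rn hα hz
    have hr : 0 ≤ α * (1 - ‖z‖) := mul_nonneg hα.le (by linarith)
    rw [circleIntegral.integral_congr hr (g := fun ζ => ((pr (S n).1 (‖ζ‖ ^ 2) : ℝ) : ℂ))]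
    · rw [circle_eq (S n).2.1.continuous, (S n).2.2 ‖z‖ (norm_nonneg z) hn.le]
      simp
    · intro ζ hζ
      apply hf n
      have h1 : ‖ζ‖ ≤ ‖z‖ + α * (1 - ‖z‖) := by
        rw [mem_sphere, dist_eq_norm] at hζ
        calc ‖ζ‖ = ‖z + (ζ - z)‖ := by ring_nf
          _ ≤ ‖z‖ + ‖ζ - z‖ := norm_add_le _ _
          _ = _ := by rw [hζ]
      calc ‖ζ‖ ^ 2 ≤ (‖z‖ + α * (1 - ‖z‖)) ^ 2 := pow_le_pow_left₀ (norm_nonneg _) h1 2
        _ ≤ X n := hXmono _ _ (norm_nonneg z) hn.le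
  · intro hd
    have hs : 0 < √(α ^ 2 / 8) := Real.sqrt_pos.2 (by positivity)
    have hs2 : √(α ^ 2 / 8) ^ 2 = α ^ 2 / 8 := Real.sq_sqrt (by positivity)
    have hα2 : 0 < α ^ 2 := by positivity
    have hX0 : α ^ 2 ≤ X 0 := by
      show α ^ 2 ≤ (rn α 0 + α * (1 - rn α 0)) ^ 2
      rw [hX]
      have h1 : 0 < (1 - α) * rn α 0 := mul_pos (by linarith) (rn_pos hα 0)
      nlinarith
    have hns : ‖((√(α ^ 2 / 8) : ℝ) : ℂ)‖ ^ 2 = α ^ 2 / 8 := by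
      rw [Complex.norm_real, Real.norm_eq_abs, sq_abs, hs2]
    have hmem : ((√(α ^ 2 / 8) : ℝ) : ℂ) ∈ ball (0 : ℂ) 1 := by
      rw [mem_ball_zero_iff]
      have h1 := norm_nonneg ((√(α ^ 2 / 8) : ℝ) : ℂ)
      by_contra hc
      have : 1 ≤ ‖((√(α ^ 2 / 8) : ℝ) : ℂ)‖ ^ 2 := by nlinarith [not_lt.1 hc]
      rw [hns] at this
      nlinarith
    refine not_differentiableAt (G := (S 0).1) (S 0).2.1.continuous hs ?_
      (hnear 0 _ (by rw [hns]; linarith)) ((hd _ hmem).differentiableAt (isOpen_ball.mem_nhds hmem))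
    rw [hs2]
    show G0 (α ^ 2 / 8) ≠ 0
    rw [hG01]
    exact one_ne_zero

end Pool.Agent.U612.MR
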