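import Mathlib

/-!
# Smooth functions defined by integrals with a parameter
-/

set_option autoImplicit false

open MeasureTheory Set Metric
open scoped ContDiff Convolution

namespace Pool.Agent.U612.MR

/-- An integral over a fixed interval of a function which is `C^n` in the parameter and the
variable is `C^n` in the parameter. -/
theorem contDiff_integral {P : Type*} [NormedAddCommGroup P] [NormedSpace ℝ P] {n : ℕ∞}
    {F : P → ℝ → ℝ} (hF : ContDiff ℝ n (Function.uncurry F)) (A B : ℝ) (hAB : A ≤ B) :
    ContDiff ℝ n fun p => ∫ t in A..B, F p t := by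
  classical
  -- a bump function
  obtain ⟨χ, hχ1, hχc, hχs⟩ : ∃ χ : ℝ → ℝ, (∀ t ∈ Icc A B, χ (-t) = 1) ∧ ContDiff ℝ ∞ χ ∧
      HasCompactSupport χ := by
    let b : ContDiffBump (-(A + B) / 2 : ℝ) := ⟨(B - A) / 2 + 1, (B - A) / 2 + 2, by linarith, by linarith⟩
    refine ⟨b, fun t ht => ?_, b.contDiff, b.hasCompactSupport⟩
    apply b.one_of_mem_closedBall
    rw [mem_closedBall, Real.dist_eq, abs_le]
    show -((B - A) / 2 + 1) ≤ _ ∧ _ ≤ (B - A) / 2 + 1
    constructor <;> linarith [ht.1, ht.2]
  let g : P → ℝ → ℝ := fun p x => χ x * F p (-x)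
  let f : ℝ → ℝ := (Icc A B).indicator fun _ => 1
  have hf : LocallyIntegrable f volume := by
    apply Integrable.locallyIntegrable
    apply (integrable_indicator_iff measurableSet_Icc).2
    exact (continuous_const.integrableOn_Icc)
  have hg : ContDiffOn ℝ n (Function.uncurry g) (univ ×ˢ univ) := by
    apply ContDiff.contDiffOn
    have h1 : ContDiff ℝ n fun q : P × ℝ => χ q.2 :=
      (hχc.of_le (by exact_mod_cast le_top)).comp contDiff_snd
    have h2 : ContDiff ℝ n fun q : P × ℝ => F q.1 (-q.2) :=
      hF.comp (contDiff_fst.prodMk contDiff_snd.neg)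
    exact h1.mul h2
  have h := contDiffOn_convolution_right_with_param (μ := volume) (ContinuousLinearMap.mul ℝ ℝ)
    (f := f) (g := g) (s := univ) (k := tsupport χ) isOpen_univ hχs
    (fun p x _ hx => by
      have : χ x = 0 := image_eq_zero_of_notMem_tsupport hx
      simp [g, this]) hf hg
  rw [univ_prod_univ, contDiffOn_univ] at h
  have h2 : ContDiff ℝ n fun p : P => ((p, (0 : ℝ)) : P × ℝ) := contDiff_id.prodMk contDiff_const
  have h3 := h.comp h2
  convert h3 using 1
  funext p
  simp only [Function.comp]
  rw [convolution_def, intervalIntegral.integral_of_le hAB, ← integral_Icc_eq_integral_Ioc,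
    ← integral_indicator measurableSet_Icc]
  refine integral_congr_ae (Filter.Eventually.of_forall fun t => ?_)
  by_cases ht : t ∈ Icc A B
  · simp [f, g, indicator_of_mem ht, hχ1 t ht]
  · simp [f, g, indicator_of_notMem ht]

/-- A smooth positive function which is the identity from `ε` on. -/
theorem exists_posExt (ε : ℝ) (hε : 0 < ε) :
    ∃ h : ℝ → ℝ, ContDiff ℝ ∞ h ∧ (∀ y, 0 < h y) ∧ ∀ y, ε ≤ y → h y = y := by
  refine ⟨fun y => y * Real.smoothTransition ((y - ε / 2) / (ε / 2)) +
    ε * (1 - Real.smoothTransition ((y - ε / 2) / (ε / 2))), ?_, ?_, ?_⟩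
  · have h1 : ContDiff ℝ ∞ fun y : ℝ => Real.smoothTransition ((y - ε / 2) / (ε / 2)) :=
      Real.smoothTransition.contDiff.comp ((contDiff_id.sub contDiff_const).div_const _)
    exact (contDiff_id.mul h1).add (contDiff_const.mul (contDiff_const.sub h1))
  · intro y
    have h0 := Real.smoothTransition.nonneg ((y - ε / 2) / (ε / 2))
    have h1 := Real.smoothTransition.le_one ((y - ε / 2) / (ε / 2))
    rcases le_or_gt y (ε / 2) with hy | hy
    · have h2 : Real.smoothTransition ((y - ε / 2) / (ε / 2)) = 0 := by
        apply Real.smoothTransition.zero_of_nonpos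
        apply div_nonpos_of_nonpos_of_nonneg <;> linarith
      simp only [h2]; linarith
    · have hy0 : 0 < y := by linarith
      have hm : 0 < min y ε := lt_min hy0 hε
      have h3 : min y ε * Real.smoothTransition ((y - ε / 2) / (ε / 2)) ≤
          y * Real.smoothTransition ((y - ε / 2) / (ε / 2)) :=
        mul_le_mul_of_nonneg_right (min_le_left _ _) h0
      have h4 : min y ε * (1 - Real.smoothTransition ((y - ε / 2) / (ε / 2))) ≤
          ε * (1 - Real.smoothTransition ((y - ε / 2) / (ε / 2))) :=
        mul_le_mul_of_nonneg_right (min_le_right _ _) (by linarith)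
      have h5 : min y ε * Real.smoothTransition ((y - ε / 2) / (ε / 2)) +
        min y ε * (1 - Real.smoothTransition ((y - ε / 2) / (ε / 2))) = min y ε := by ring
      simp only
      linarith
  · intro y hy
    have h2 : Real.smoothTransition ((y - ε / 2) / (ε / 2)) = 1 := by
      apply Real.smoothTransition.one_of_one_le
      rw [le_div_iff₀ (by linarith)]; linarith
    simp only [h2]; ring

end Pool.Agent.U612.MR
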