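import Pool.Agent.U612.MR.Volterra

/-!
# Abel type integral equations of the first kind with smooth data
-/

set_option autoImplicit false

open MeasureTheory Set Metric
open scoped ContDiff

namespace Pool.Agent.U612.MR

/-- the mean of a kernel which results from the composition of two Abel type operators -/
noncomputable def nh (N : ℝ → ℝ → ℝ) (x τ : ℝ) : ℝ :=
  ∫ θ in (-Real.pi)..Real.pi, Real.cos θ ^ 2 / 2 * N x (x - τ * Real.cos θ ^ 2)

theorem contDiff_nh {N : ℝ → ℝ → ℝ} (hN : ContDiff ℝ ∞ (Function.uncurry N)) :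
    ContDiff ℝ ∞ (Function.uncurry (nh N)) := by
  have h1 : ContDiff ℝ ∞ (Function.uncurry fun (p : ℝ × ℝ) (θ : ℝ) =>
      Real.cos θ ^ 2 / 2 * N p.1 (p.1 - p.2 * Real.cos θ ^ 2)) := by
    have h2 : ContDiff ℝ ∞ fun q : (ℝ × ℝ) × ℝ => Real.cos q.2 :=
      Real.contDiff_cos.comp contDiff_snd
    have h3 : ContDiff ℝ ∞ fun q : (ℝ × ℝ) × ℝ => q.1.1 := contDiff_fst.comp contDiff_fst
    have h4 : ContDiff ℝ ∞ fun q : (ℝ × ℝ) × ℝ => q.1.2 := contDiff_snd.comp contDiff_fst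
    have h5 : ContDiff ℝ ∞ fun q : (ℝ × ℝ) × ℝ => N q.1.1 (q.1.1 - q.1.2 * Real.cos q.2 ^ 2) :=
      hN.comp (h3.prodMk (h3.sub (h4.mul (h2.pow 2))))
    exact ((h2.pow 2).div_const 2).mul h5
  exact contDiff_integral (P := ℝ × ℝ) (n := ⊤) h1 (-Real.pi) Real.pi (by linarith [Real.pi_pos])

theorem nh_zero_pos {N : ℝ → ℝ → ℝ} {x : ℝ} (hN : 0 < N x x) : 0 < nh N x 0 := by
  have h1 : nh N x 0 = N x x / 2 * ∫ θ in (-Real.pi)..Real.pi, Real.cos θ ^ 2 := by
    rw [nh, ← intervalIntegral.integral_const_mul]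
    congr 1
    funext θ
    rw [zero_mul, sub_zero]; ring
  rw [h1, integral_cos_sq]
  simp only [Real.cos_pi, Real.sin_pi, Real.cos_neg, Real.sin_neg]
  have := Real.pi_pos
  have h2 : 0 < N x x / 2 := by positivity
  apply mul_pos h2
  ring_nf
  positivity

theorem polar_identity {N : ℝ → ℝ → ℝ} (hN : ContDiff ℝ ∞ (Function.uncurry N)) {φ : ℝ → ℝ}
    (hφ : Continuous φ) {a b x : ℝ} (hab : a ≤ b) (hφa : ∀ v ≤ a, φ v = 0) (hx : x ≤ b) :
    (∫ z in (-√(b - a))..√(b - a), (∫ y in (-√(b - a))..√(b - a), φ (x - z ^ 2 - y ^ 2)) *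
      (z ^ 2 * N x (x - z ^ 2))) =
    ∫ τ in (0 : ℝ)..(b - a), φ (x - τ) * (τ * nh N x τ) := by
  set Y := √(b - a) with hY
  have hY0 : 0 ≤ Y := Real.sqrt_nonneg _
  have hY2 : Y ^ 2 = b - a := Real.sq_sqrt (by linarith)
  have hYY : -Y ≤ Y := by linarith
  have hNc : Continuous fun p : ℝ × ℝ => N p.1 p.2 := hN.continuous
  let Φ : ℝ × ℝ → ℝ := fun p => φ (x - p.1 ^ 2 - p.2 ^ 2) * (p.1 ^ 2 * N x (x - p.1 ^ 2))
  have hΦc : Continuous Φ := by
    have h1 : Continuous fun p : ℝ × ℝ => N x (x - p.1 ^ 2) :=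
      hNc.comp (by fun_prop : Continuous fun p : ℝ × ℝ => ((x, x - p.1 ^ 2) : ℝ × ℝ))
    have h2 : Continuous fun p : ℝ × ℝ => φ (x - p.1 ^ 2 - p.2 ^ 2) := hφ.comp (by fun_prop)
    exact h2.mul ((by fun_prop : Continuous fun p : ℝ × ℝ => p.1 ^ 2).mul h1)
  have hφ0 : ∀ t : ℝ, Y ^ 2 ≤ t → φ (x - t) = 0 := fun t ht => hφa _ (by linarith)
  have hΦ0 : ∀ z y : ℝ, Y ^ 2 ≤ z ^ 2 + y ^ 2 → Φ (z, y) = 0 := by
    intro z y h
    have : x - z ^ 2 - y ^ 2 = x - (z ^ 2 + y ^ 2) := by ring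
    simp only [Φ, this, hφ0 _ h, zero_mul]
  have hsq : ∀ z : ℝ, z ∉ Ioc (-Y) Y → Y ^ 2 ≤ z ^ 2 := by
    intro z hz
    rw [mem_Ioc, not_and_or, not_lt, not_le] at hz
    rcases hz with hz | hz <;> nlinarith
  have hΦs : HasCompactSupport Φ := by
    refine HasCompactSupport.intro ((isCompact_Icc (a := -Y) (b := Y)).prod
      (isCompact_Icc (a := -Y) (b := Y))) fun p hp => ?_
    rw [mem_prod, not_and_or] at hp
    rcases hp with hp | hp
    · have := hsq p.1 fun h => hp (Ioc_subset_Icc_self h)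
      exact hΦ0 p.1 p.2 (by nlinarith [sq_nonneg p.2])
    · have := hsq p.2 fun h => hp (Ioc_subset_Icc_self h)
      exact hΦ0 p.1 p.2 (by nlinarith [sq_nonneg p.1])
  have hΦi : Integrable Φ (volume.prod volume) := by
    rw [← Measure.volume_eq_prod]
    exact hΦc.integrable_of_hasCompactSupport hΦs
  -- left-hand side
  have hL : (∫ z in (-Y)..Y, (∫ y in (-Y)..Y, φ (x - z ^ 2 - y ^ 2)) *
      (z ^ 2 * N x (x - z ^ 2))) = ∫ p, Φ p := by
    rw [Measure.volume_eq_prod, integral_prod _ hΦi, intervalIntegral.integral_of_le hYY]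
    have hin1 : ∀ z, ∫ y in Ioc (-Y) Y, Φ (z, y) = ∫ y, Φ (z, y) := fun z =>
      setIntegral_eq_integral_of_forall_compl_eq_zero fun y hy =>
        hΦ0 z y (by nlinarith [sq_nonneg z, hsq y hy])
    rw [← setIntegral_eq_integral_of_forall_compl_eq_zero (s := Ioc (-Y) Y)
      (f := fun z => ∫ y, Φ (z, y))]
    · apply setIntegral_congr_fun measurableSet_Ioc
      intro z _
      simp only
      rw [← hin1, intervalIntegral.integral_of_le hYY, ← integral_mul_const]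
    · intro z hz
      have : (fun y => Φ (z, y)) = fun _ => 0 := by
        funext y
        exact hΦ0 z y (by nlinarith [sq_nonneg y, hsq z hz])
      rw [this, integral_zero]
  rw [hL, ← integral_comp_polarCoord_symm Φ]
  -- the integrand in polar coordinates
  have hpol : ∀ p : ℝ × ℝ, p.1 • Φ (polarCoord.symm p) =
      2 * p.1 * (φ (x - p.1 ^ 2) * p.1 ^ 2) *
        (Real.cos p.2 ^ 2 / 2 * N x (x - p.1 ^ 2 * Real.cos p.2 ^ 2)) := by
    intro p
    rw [polarCoord_symm_apply, smul_eq_mul]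
    simp only [Φ]
    have h1 : x - (p.1 * Real.cos p.2) ^ 2 - (p.1 * Real.sin p.2) ^ 2 = x - p.1 ^ 2 := by
      have := Real.sin_sq_add_cos_sq p.2
      linear_combination (-(p.1 ^ 2)) * this
    rw [h1, mul_pow]
    ring
  simp only [hpol]
  let Ψ : ℝ × ℝ → ℝ := fun p => 2 * p.1 * (φ (x - p.1 ^ 2) * p.1 ^ 2) *
        (Real.cos p.2 ^ 2 / 2 * N x (x - p.1 ^ 2 * Real.cos p.2 ^ 2))
  change ∫ p in polarCoord.target, Ψ p = _
  have hΨc : Continuous Ψ := by
    have h1 : Continuous fun p : ℝ × ℝ => N x (x - p.1 ^ 2 * Real.cos p.2 ^ 2) :=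
      hNc.comp (by fun_prop : Continuous fun p : ℝ × ℝ =>
        ((x, x - p.1 ^ 2 * Real.cos p.2 ^ 2) : ℝ × ℝ))
    have h2 : Continuous fun p : ℝ × ℝ => φ (x - p.1 ^ 2) := hφ.comp (by fun_prop)
    exact (((by fun_prop : Continuous fun p : ℝ × ℝ => 2 * p.1).mul (h2.mul (by fun_prop)))).mul
      ((by fun_prop : Continuous fun p : ℝ × ℝ => Real.cos p.2 ^ 2 / 2).mul h1)
  have htar : polarCoord.target = Ioi (0 : ℝ) ×ˢ Ioo (-Real.pi) Real.pi := rfl
  have hΨi : IntegrableOn Ψ (Ioi (0 : ℝ) ×ˢ Ioo (-Real.pi) Real.pi) (volume.prod volume) := by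
    have h1 : IntegrableOn Ψ (Icc (0 : ℝ) Y ×ˢ Icc (-Real.pi) Real.pi) (volume.prod volume) := by
      rw [← Measure.volume_eq_prod]
      exact hΨc.continuousOn.integrableOn_compact (isCompact_Icc.prod isCompact_Icc)
    refine h1.of_forall_sdiff_eq_zero (measurableSet_Ioi.prod measurableSet_Ioo) ?_
    rintro ⟨r, θ⟩ ⟨⟨hr, hθ⟩, h⟩
    have hr' : Y < r := by
      by_contra hc
      exact h ⟨⟨le_of_lt hr, not_lt.1 hc⟩, Ioo_subset_Icc_self hθ⟩
    have : φ (x - r ^ 2) = 0 := hφ0 _ (by nlinarith)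
    simp only [Ψ, this, zero_mul, mul_zero]
  rw [htar, Measure.volume_eq_prod, setIntegral_prod _ hΨi]
  have hin : ∀ r : ℝ, (∫ θ in Ioo (-Real.pi) Real.pi, Ψ (r, θ)) =
      ((fun τ => φ (x - τ) * (τ * nh N x τ)) ∘ fun r => r ^ 2) r * (2 * r) := by
    intro r
    rw [← integral_Ioc_eq_integral_Ioo, ← intervalIntegral.integral_of_le
      (by linarith [Real.pi_pos])]
    simp only [Ψ, Function.comp]
    rw [intervalIntegral.integral_const_mul, nh]
    ring
  simp only [hin]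
  have hnc : Continuous fun τ => nh N x τ :=
    (contDiff_nh hN).continuous.comp (by fun_prop : Continuous fun τ : ℝ => ((x, τ) : ℝ × ℝ))
  have hhc : Continuous fun τ => φ (x - τ) * (τ * nh N x τ) :=
    (hφ.comp (by fun_prop : Continuous fun τ : ℝ => x - τ)).mul (continuous_id.mul hnc)
  have hsub := intervalIntegral.integral_comp_mul_deriv (a := 0) (b := Y) (f := fun r : ℝ => r ^ 2)
    (f' := fun r => 2 * r) (g := fun τ => φ (x - τ) * (τ * nh N x τ))
    (fun r _ => by simpa using hasDerivAt_pow 2 r) (by fun_prop) hhc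
  simp only at hsub
  rw [hY2] at hsub
  norm_num at hsub
  rw [← hsub, intervalIntegral.integral_of_le hY0]
  refine setIntegral_eq_of_subset_of_forall_sdiff_eq_zero measurableSet_Ioi Ioc_subset_Ioi_self
    fun r hr => ?_
  have hr' : Y < r := by
    by_contra hc
    exact hr.2 ⟨hr.1, not_lt.1 hc⟩
  simp only [Function.comp, hφ0 (r ^ 2) (by nlinarith), zero_mul]

end Pool.Agent.U612.MR
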