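import Pool.Agent.U612.MR.Geom

/-!
# Extension of a radial function such that the integrals over more circles vanish
-/

set_option autoImplicit false

open MeasureTheory Set Metric
open scoped ContDiff Real

namespace Pool.Agent.U612.MR

theorem contDiff_cir {α : ℝ} {G : ℝ → ℝ} (hG : ContDiff ℝ ∞ G) :
    ContDiff ℝ ∞ fun ρ => cir G ρ (α * (1 - ρ)) := by
  have h1 : ContDiff ℝ ∞ (Function.uncurry fun (ρ β : ℝ) =>
      G (ρ ^ 2 + (α * (1 - ρ)) ^ 2 + 2 * ρ * (α * (1 - ρ)) * Real.cos β) * Real.sin β ^ 2) := by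
    have h2 : ContDiff ℝ ∞ fun q : ℝ × ℝ => Real.cos q.2 := Real.contDiff_cos.comp contDiff_snd
    have h3 : ContDiff ℝ ∞ fun q : ℝ × ℝ => Real.sin q.2 := Real.contDiff_sin.comp contDiff_snd
    have h4 : ContDiff ℝ ∞ fun q : ℝ × ℝ => α * (1 - q.1) :=
      contDiff_const.mul (contDiff_const.sub contDiff_fst)
    have h5 : ContDiff ℝ ∞ fun q : ℝ × ℝ =>
        q.1 ^ 2 + (α * (1 - q.1)) ^ 2 + 2 * q.1 * (α * (1 - q.1)) * Real.cos q.2 :=
      ((contDiff_fst.pow 2).add (h4.pow 2)).add (((contDiff_const.mul contDiff_fst).mul h4).mul h2)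
    exact (hG.comp h5).mul (h3.pow 2)
  exact contDiff_integral (P := ℝ) (n := ⊤) h1 (-π) π (by linarith [Real.pi_pos])

theorem cir_add {G g : ℝ → ℝ} (hG : Continuous G) (hg : Continuous g) (ρ r : ℝ) :
    cir (fun u => G u + g u) ρ r = cir G ρ r + cir g ρ r := by
  have h1 : ∀ f : ℝ → ℝ, Continuous f → IntervalIntegrable (fun β : ℝ =>
      f (ρ ^ 2 + r ^ 2 + 2 * ρ * r * Real.cos β) * Real.sin β ^ 2) volume (-π) π := by
    intro f hf
    have h2 : Continuous fun β : ℝ => f (ρ ^ 2 + r ^ 2 + 2 * ρ * r * Real.cos β) :=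
      hf.comp (by fun_prop)
    exact (h2.mul (by fun_prop)).intervalIntegrable _ _
  rw [cir, cir, cir, ← intervalIntegral.integral_add (h1 G hG) (h1 g hg)]
  congr 1
  funext β
  ring

theorem cir_zero {g : ℝ → ℝ} {ρ r : ℝ} (h : ∀ β : ℝ,
    g (ρ ^ 2 + r ^ 2 + 2 * ρ * r * Real.cos β) = 0) : cir g ρ r = 0 := by
  rw [cir]
  simp only [h, zero_mul, intervalIntegral.integral_zero]

theorem arg_le {ρ r : ℝ} (hρ : 0 ≤ ρ) (hr : 0 ≤ r) (β : ℝ) :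
    ρ ^ 2 + r ^ 2 + 2 * ρ * r * Real.cos β ≤ (ρ + r) ^ 2 := by
  have h1 := Real.cos_le_one β
  have h2 : 0 ≤ 2 * ρ * r := by positivity
  nlinarith

theorem le_arg {ρ r : ℝ} (hρ : 0 ≤ ρ) (hr : 0 ≤ r) (β : ℝ) :
    (ρ - r) ^ 2 ≤ ρ ^ 2 + r ^ 2 + 2 * ρ * r * Real.cos β := by
  have h1 := Real.neg_one_le_cos β
  have h2 : 0 ≤ 2 * ρ * r := by positivity
  nlinarith

theorem step {α : ℝ} (hα : 0 < α) (hα1 : α < 1) {ρ₀ ρ₁ : ℝ} (h0 : 0 < ρ₀) (h01 : ρ₀ ≤ ρ₁)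
    (h1 : ρ₁ < 1)
    (hgap : ∀ ρ ∈ Icc ρ₀ ρ₁, (ρ - α * (1 - ρ)) ^ 2 < (ρ₀ + α * (1 - ρ₀)) ^ 2) {G : ℝ → ℝ}
    (hG : ContDiff ℝ ∞ G) (hGL : ∀ ρ, 0 ≤ ρ → ρ ≤ ρ₀ → cir G ρ (α * (1 - ρ)) = 0) :
    ∃ G' : ℝ → ℝ, ContDiff ℝ ∞ G' ∧ (∀ ρ, 0 ≤ ρ → ρ ≤ ρ₁ → cir G' ρ (α * (1 - ρ)) = 0) ∧
      ∀ u ≤ (ρ₀ + α * (1 - ρ₀)) ^ 2, G' u = G u := by
  have hβ : 0 < 1 - α := by linarith
  -- the outer radius as a function of `ρ`
  have hX : ∀ ρ : ℝ, (ρ + α * (1 - ρ)) = α + (1 - α) * ρ := fun ρ => by ring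
  set a := (ρ₀ + α * (1 - ρ₀)) ^ 2 with ha
  set b := (ρ₁ + α * (1 - ρ₁)) ^ 2 with hb
  have haα : α ^ 2 < a := by
    rw [ha, hX]
    have : 0 < (1 - α) * ρ₀ := by positivity
    nlinarith
  have hab : a ≤ b := by
    rw [ha, hb, hX, hX]
    have h2 : (1 - α) * ρ₀ ≤ (1 - α) * ρ₁ := mul_le_mul_of_nonneg_left h01 hβ.le
    have h3 : 0 < (1 - α) * ρ₀ := by positivity
    nlinarith
  -- the gap
  obtain ⟨ε, hε, hεm⟩ : ∃ ε : ℝ, 0 < ε ∧ ∀ ρ ∈ Icc ρ₀ ρ₁, (ρ - α * (1 - ρ)) ^ 2 + ε ≤ a := by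
    obtain ⟨ρm, hρm, hmin⟩ := (isCompact_Icc (a := ρ₀) (b := ρ₁)).exists_isMinOn
      (nonempty_Icc.2 h01) (f := fun ρ => a - (ρ - α * (1 - ρ)) ^ 2) (by fun_prop)
    refine ⟨a - (ρm - α * (1 - ρm)) ^ 2, by linarith [hgap ρm hρm], fun ρ hρ => ?_⟩
    have : a - (ρm - α * (1 - ρm)) ^ 2 ≤ a - (ρ - α * (1 - ρ)) ^ 2 := hmin hρ
    linarith
  obtain ⟨e, he, hepos, heid⟩ := exists_posExt ε hε
  obtain ⟨e0, he0, he0pos, he0id⟩ := exists_posExt (α ^ 2) (by positivity)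
  -- `ρ` as a function of the square of the outer radius
  let q : ℝ → ℝ := fun x => (√(e0 x) - α) / (1 - α)
  have hq : ContDiff ℝ ∞ q :=
    ((he0.sqrt fun x => (he0pos x).ne').sub contDiff_const).div_const _
  have hqX : ∀ ρ : ℝ, 0 ≤ ρ → q ((ρ + α * (1 - ρ)) ^ 2) = ρ := by
    intro ρ hρ
    have h2 : 0 ≤ (1 - α) * ρ := by positivity
    have h3 : α ^ 2 ≤ (ρ + α * (1 - ρ)) ^ 2 := by rw [hX]; nlinarith
    simp only [q]
    rw [he0id _ h3, hX, Real.sqrt_sq (by positivity)]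
    field_simp
    ring
  have hqI : ∀ x : ℝ, α ^ 2 ≤ x → x ≤ a → 0 ≤ q x ∧ q x ≤ ρ₀ := by
    intro x hx hxa
    have hx0 : 0 ≤ x := (sq_nonneg α).trans hx
    simp only [q]
    rw [he0id _ hx]
    have h2 : α ≤ √x := Real.le_sqrt_of_sq_le hx
    have h3 : √x ≤ α + (1 - α) * ρ₀ := by
      rw [Real.sqrt_le_left (by positivity), ← hX]
      exact hxa
    constructor
    · exact div_nonneg (by linarith) hβ.le
    · rw [div_le_iff₀ hβ]; linarith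
  let N : ℝ → ℝ → ℝ := fun x u => √(e (u - (q x - α * (1 - q x)) ^ 2))
  have hN : ContDiff ℝ ∞ (Function.uncurry N) := by
    have h2 : ContDiff ℝ ∞ fun p : ℝ × ℝ => q p.1 := hq.comp contDiff_fst
    have h3 : ContDiff ℝ ∞ fun p : ℝ × ℝ => p.2 - (q p.1 - α * (1 - q p.1)) ^ 2 :=
      contDiff_snd.sub ((h2.sub (contDiff_const.mul (contDiff_const.sub h2))).pow 2)
    exact (he.comp h3).sqrt fun p => (hepos _).ne'
  have hNpos : ∀ x, 0 < N x x := fun x => Real.sqrt_pos.2 (hepos _)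
  let δ : ℝ := a - α ^ 2
  have hδ : 0 < δ := by simp only [δ]; linarith
  let χ : ℝ → ℝ := fun x => Real.smoothTransition ((x - α ^ 2) / δ)
  have hχ : ContDiff ℝ ∞ χ :=
    Real.smoothTransition.contDiff.comp ((contDiff_id.sub contDiff_const).div_const _)
  let F : ℝ → ℝ := fun x => -((2 * q x * (α * (1 - q x))) ^ 2 / 2 * cir G (q x) (α * (1 - q x)))
  have hF : ContDiff ℝ ∞ F := by
    have h2 : ContDiff ℝ ∞ fun x => cir G (q x) (α * (1 - q x)) := (contDiff_cir hG).comp hq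
    exact (((((contDiff_const.mul hq).mul (contDiff_const.mul (contDiff_const.sub hq))).pow 2).div_const
      2).mul h2).neg
  obtain ⟨g, hg, hga, hge⟩ := first_kind hN hNpos (R := fun x => χ x * F x) (hχ.mul hF) hab (by
    intro x hx
    rcases le_or_gt x (α ^ 2) with h2 | h2
    · have : χ x = 0 := Real.smoothTransition.zero_of_nonpos
        (div_nonpos_of_nonpos_of_nonneg (by linarith) hδ.le)
      simp only [this, zero_mul]
    · obtain ⟨h3, h4⟩ := hqI x h2.le hx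
      simp only [F, hGL _ h3 h4, mul_zero, neg_zero])
  refine ⟨fun u => G u + g u, hG.add hg, ?_, fun u hu => by
    show G u + g u = G u
    rw [hga u hu, add_zero]⟩
  intro ρ hρ hρ1
  rw [cir_add hG.continuous hg.continuous]
  have hr : 0 < α * (1 - ρ) := mul_pos hα (by linarith)
  rcases le_or_gt ρ ρ₀ with h2 | h2
  · rw [hGL ρ hρ h2, zero_add]
    apply cir_zero
    intro β
    apply hga
    refine (arg_le hρ hr.le β).trans ?_
    rw [ha, hX, hX]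
    have h3 : (1 - α) * ρ ≤ (1 - α) * ρ₀ := mul_le_mul_of_nonneg_left h2 hβ.le
    have h4 : 0 ≤ (1 - α) * ρ := by positivity
    nlinarith
  · have hρI : ρ ∈ Icc ρ₀ ρ₁ := ⟨h2.le, hρ1⟩
    have hρ0 : 0 < ρ := h0.trans h2
    have hxb : (ρ + α * (1 - ρ)) ^ 2 ≤ b := by
      rw [hb, hX, hX]
      have h3 : (1 - α) * ρ ≤ (1 - α) * ρ₁ := mul_le_mul_of_nonneg_left hρ1 hβ.le
      have h4 : 0 ≤ (1 - α) * ρ := by positivity
      nlinarith
    have hax : a ≤ (ρ + α * (1 - ρ)) ^ 2 := by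
      rw [ha, hX, hX]
      have h3 : (1 - α) * ρ₀ ≤ (1 - α) * ρ := mul_le_mul_of_nonneg_left h2.le hβ.le
      have h4 : 0 ≤ (1 - α) * ρ₀ := by positivity
      nlinarith
    rw [cir_eq hg.continuous hρ0 hr hab hga hxb (hgap ρ hρI).le]
    have h3 := hge _ hxb
    have hqρ := hqX ρ hρ
    have h4 : ∀ z : ℝ, g ((ρ + α * (1 - ρ)) ^ 2 - z ^ 2) *
        (z ^ 2 * N ((ρ + α * (1 - ρ)) ^ 2) ((ρ + α * (1 - ρ)) ^ 2 - z ^ 2)) =
        g ((ρ + α * (1 - ρ)) ^ 2 - z ^ 2) *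
        (z ^ 2 * √((ρ + α * (1 - ρ)) ^ 2 - z ^ 2 - (ρ - α * (1 - ρ)) ^ 2)) := by
      intro z
      rcases le_or_gt ((ρ + α * (1 - ρ)) ^ 2 - z ^ 2) a with h5 | h5
      · rw [hga _ h5, zero_mul, zero_mul]
      · simp only [N, hqρ]
        rw [heid _ (by linarith [hεm ρ hρI])]
    simp only [h4] at h3
    rw [h3]
    have h5 : χ ((ρ + α * (1 - ρ)) ^ 2) = 1 := by
      apply Real.smoothTransition.one_of_one_le
      rw [le_div_iff₀ hδ]
      simp only [δ]; linarith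
    simp only [h5, F, hqρ]
    have h6 : (2 * ρ * (α * (1 - ρ))) ≠ 0 := by positivity
    generalize 2 * ρ * (α * (1 - ρ)) = w at h6 ⊢
    generalize cir G ρ (α * (1 - ρ)) = c
    field_simp
    ring

end Pool.Agent.U612.MR
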