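import Pool.Agent.U612.MR.Param

/-!
# Volterra equations of the second kind with smooth data
-/

set_option autoImplicit false

open MeasureTheory Set Metric
open scoped ContDiff BoundedContinuousFunction NNReal

namespace Pool.Agent.U612.MR

theorem exp_bound {T l C : ℝ} (hT : 0 ≤ T) (hl : 0 < l) {h : ℝ → ℝ}
    (hc : ∀ σ ∈ Icc 0 T, |h σ| ≤ C) :
    |∫ σ in (0 : ℝ)..T, Real.exp (-(l * σ)) * h σ| ≤ C / l := by
  have hC : 0 ≤ C := (abs_nonneg _).trans (hc 0 ⟨le_rfl, hT⟩)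
  have h1 : ‖∫ σ in (0 : ℝ)..T, Real.exp (-(l * σ)) * h σ‖ ≤
      ∫ σ in (0 : ℝ)..T, Real.exp (-(l * σ)) * C := by
    apply intervalIntegral.norm_integral_le_of_norm_le hT
    · refine Filter.Eventually.of_forall fun t ht => ?_
      rw [norm_mul, Real.norm_eq_abs, abs_of_pos (Real.exp_pos _), Real.norm_eq_abs]
      exact mul_le_mul_of_nonneg_left (hc t ⟨ht.1.le, ht.2⟩) (Real.exp_pos _).le
    · exact (by fun_prop : Continuous fun σ : ℝ => Real.exp (-(l * σ)) * C).intervalIntegrable _ _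
  have h2 : ∫ σ in (0 : ℝ)..T, Real.exp (-(l * σ)) * C =
      (-(Real.exp (-(l * T)) * C / l)) - (-(Real.exp (-(l * 0)) * C / l)) := by
    apply intervalIntegral.integral_eq_sub_of_hasDerivAt
      (f := fun x => -(Real.exp (-(l * x)) * C / l))
    · intro x _
      have h3 : HasDerivAt (fun x : ℝ => -(l * x)) (-(l * 1)) x :=
        ((hasDerivAt_id x).const_mul l).neg
      exact ((h3.exp.mul_const C).div_const l).neg.congr_deriv (by field_simp)
    · exact (by fun_prop : Continuous fun σ : ℝ => Real.exp (-(l * σ)) * C).intervalIntegrable _ _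
  rw [h2, Real.norm_eq_abs] at h1
  refine h1.trans ?_
  rw [mul_zero, neg_zero, Real.exp_zero, one_mul]
  have : 0 ≤ Real.exp (-(l * T)) * C / l := by positivity
  linarith

/-- partial derivative in the second variable -/
noncomputable def d2 (K : ℝ → ℝ → ℝ) (x σ : ℝ) : ℝ := fderiv ℝ (Function.uncurry K) (x, σ) (0, 1)

theorem hasDerivAt_d2 {K : ℝ → ℝ → ℝ} (hK : ContDiff ℝ ∞ (Function.uncurry K)) (x σ : ℝ) :
    HasDerivAt (fun σ => K x σ) (d2 K x σ) σ := by
  have h1 : HasFDerivAt (Function.uncurry K) (fderiv ℝ (Function.uncurry K) (x, σ)) (x, σ) :=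
    (hK.differentiable (by simp) _).hasFDerivAt
  have h2 : HasDerivAt (fun σ : ℝ => ((x, σ) : ℝ × ℝ)) (0, 1) σ :=
    (hasDerivAt_const σ x).prodMk (hasDerivAt_id σ)
  exact h1.comp_hasDerivAt σ h2

theorem contDiff_d2 {K : ℝ → ℝ → ℝ} (hK : ContDiff ℝ ∞ (Function.uncurry K)) :
    ContDiff ℝ ∞ (Function.uncurry (d2 K)) := by
  have h1 : ContDiff ℝ ∞ (fderiv ℝ (Function.uncurry K)) := hK.fderiv_right (by simp)
  have h2 : ContDiff ℝ ∞ fun p : ℝ × ℝ => fderiv ℝ (Function.uncurry K) p (0, 1) :=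
    h1.clm_apply contDiff_const
  show ContDiff ℝ ∞ fun p : ℝ × ℝ => fderiv ℝ (Function.uncurry K) (p.1, p.2) (0, 1)
  exact h2

/-- A continuous solution is smooth. -/
theorem contDiff_of_eq {K : ℝ → ℝ → ℝ} (hK : ContDiff ℝ ∞ (Function.uncurry K)) {s ψ : ℝ → ℝ}
    (hs : ContDiff ℝ ∞ s) {T : ℝ} (hT : 0 ≤ T) (hψ : Continuous ψ)
    (h : ∀ x, ψ x = s x + ∫ σ in (0 : ℝ)..T, K x σ * ψ (x - σ)) (n : ℕ) : ContDiff ℝ n ψ := by
  induction n with
  | zero => exact contDiff_zero.2 hψ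
  | succ n ih =>
    let Ψ : ℝ → ℝ := fun x => ∫ t in (0 : ℝ)..x, ψ t
    have hd : ∀ x, HasDerivAt Ψ (ψ x) x := fun x =>
      intervalIntegral.integral_hasDerivAt_right (hψ.intervalIntegrable _ _)
        hψ.stronglyMeasurable.stronglyMeasurableAtFilter hψ.continuousAt
    have hΨ : ContDiff ℝ (n + 1) Ψ := by
      rw [contDiff_succ_iff_deriv]
      refine ⟨fun x => (hd x).differentiableAt, by simp, ?_⟩
      rw [show deriv Ψ = ψ from funext fun x => (hd x).deriv]
      exact ih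
    have hK' : ContDiff ℝ (n + 1) (Function.uncurry K) := hK.of_le (by exact_mod_cast le_top)
    have hK2 : ContDiff ℝ (n + 1) (Function.uncurry (d2 K)) :=
      (contDiff_d2 hK).of_le (by exact_mod_cast le_top)
    have key : ∀ x, ψ x = s x + (K x 0 * Ψ x - K x T * Ψ (x - T) +
        ∫ σ in (0 : ℝ)..T, d2 K x σ * Ψ (x - σ)) := by
      intro x
      rw [h x]
      congr 1
      have hv : ∀ σ : ℝ, HasDerivAt (fun σ => -Ψ (x - σ)) (ψ (x - σ)) σ := by
        intro σ
        have h1 : HasDerivAt (fun σ : ℝ => x - σ) (-1) σ := (hasDerivAt_id σ).const_sub x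
        have h2 : HasDerivAt (fun σ : ℝ => Ψ (x - σ)) (ψ (x - σ) * (-1)) σ :=
          (hd (x - σ)).comp σ h1
        exact h2.neg.congr_deriv (by ring)
      have hKc : Continuous fun σ => d2 K x σ :=
        (contDiff_d2 hK).continuous.comp (by fun_prop : Continuous fun σ : ℝ => ((x, σ) : ℝ × ℝ))
      have := intervalIntegral.integral_mul_deriv_eq_deriv_mul (a := 0) (b := T)
        (u := fun σ => K x σ) (v := fun σ => -Ψ (x - σ)) (u' := fun σ => d2 K x σ)
        (v' := fun σ => ψ (x - σ)) (fun σ _ => hasDerivAt_d2 hK x σ) (fun σ _ => hv σ)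
        (hKc.intervalIntegrable _ _)
        ((hψ.comp (by fun_prop : Continuous fun σ : ℝ => x - σ)).intervalIntegrable _ _)
      rw [this]
      simp only [mul_neg, intervalIntegral.integral_neg, sub_zero]
      ring
    have hfin : ContDiff ℝ (n + 1) fun x => s x + (K x 0 * Ψ x - K x T * Ψ (x - T) +
        ∫ σ in (0 : ℝ)..T, d2 K x σ * Ψ (x - σ)) := by
      have e1 : ContDiff ℝ (n + 1) s := hs.of_le (by exact_mod_cast le_top)
      have e2 : ContDiff ℝ (n + 1) fun x => K x 0 := hK'.comp (contDiff_id.prodMk contDiff_const)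
      have e3 : ContDiff ℝ (n + 1) fun x => K x T := hK'.comp (contDiff_id.prodMk contDiff_const)
      have e4 : ContDiff ℝ (n + 1) fun x => Ψ (x - T) := hΨ.comp (contDiff_id.sub contDiff_const)
      have e5 : ContDiff ℝ (n + 1) fun x => ∫ σ in (0 : ℝ)..T, d2 K x σ * Ψ (x - σ) := by
        have h1 : ContDiff ℝ (((n + 1 : ℕ) : ℕ∞) : WithTop ℕ∞)
            (Function.uncurry fun x σ : ℝ => d2 K x σ * Ψ (x - σ)) := by
          have h2 : ContDiff ℝ (n + 1) fun p : ℝ × ℝ => Ψ (p.1 - p.2) :=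
            hΨ.comp (contDiff_fst.sub contDiff_snd)
          have h3 : ContDiff ℝ (n + 1) fun p : ℝ × ℝ => d2 K p.1 p.2 := hK2
          have h4 := h3.mul h2
          exact_mod_cast h4
        have := contDiff_integral h1 0 T hT
        exact_mod_cast this
      exact e1.add (((e2.mul hΨ).sub (e3.mul e4)).add e5)
    have : ψ = fun x => s x + (K x 0 * Ψ x - K x T * Ψ (x - T) +
        ∫ σ in (0 : ℝ)..T, d2 K x σ * Ψ (x - σ)) := funext key
    rw [this]
    exact_mod_cast hfin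

/-- Existence for bounded kernels. -/
theorem exists_solution {K : ℝ → ℝ → ℝ} (hK : Continuous (Function.uncurry K)) {s : ℝ → ℝ}
    (hs : Continuous s) (hsc : HasCompactSupport s) {T : ℝ} (hT : 0 ≤ T) {M : ℝ} (hM0 : 0 < M)
    (hM : ∀ x, ∀ σ ∈ Icc 0 T, |K x σ| ≤ M) {a : ℝ} (ha : ∀ x ≤ a, s x = 0) :
    ∃ ψ : ℝ → ℝ, Continuous ψ ∧ (∀ x ≤ a, ψ x = 0) ∧
      ∀ x, ψ x = s x + ∫ σ in (0 : ℝ)..T, K x σ * ψ (x - σ) := by
  let l : ℝ := 2 * M
  have hl : 0 < l := by positivity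
  have hw : Continuous fun x => Real.exp (-(l * x)) * s x := by fun_prop
  obtain ⟨C, hC⟩ := (hsc.mul_left (f := fun x => Real.exp (-(l * x)))).exists_bound_of_continuous hw
  have hint : ∀ ψ : ℝ →ᵇ ℝ, Continuous fun x => ∫ σ in (0 : ℝ)..T,
      Real.exp (-(l * σ)) * (K x σ * ψ (x - σ)) := by
    intro ψ
    apply intervalIntegral.continuous_parametric_intervalIntegral_of_continuous'
    have h1 : Continuous fun p : ℝ × ℝ => K p.1 p.2 := hK
    have h2 : Continuous fun p : ℝ × ℝ => ψ (p.1 - p.2) := ψ.continuous.comp (by fun_prop)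
    exact (by fun_prop : Continuous fun p : ℝ × ℝ => Real.exp (-(l * p.2))).mul (h1.mul h2)
  have hbd : ∀ (ψ : ℝ → ℝ) (C' : ℝ) (x : ℝ), 0 ≤ C' → (∀ y ≤ x, |ψ y| ≤ C') →
      |∫ σ in (0 : ℝ)..T, Real.exp (-(l * σ)) * (K x σ * ψ (x - σ))| ≤ C' / 2 := by
    intro ψ C' x hC' h
    have := exp_bound (l := l) (C := M * C') (h := fun σ => K x σ * ψ (x - σ)) hT hl (by
      intro σ hσ
      rw [abs_mul]
      exact mul_le_mul (hM x σ hσ) (h _ (by linarith [hσ.1])) (abs_nonneg _) hM0.le)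
    refine this.trans (le_of_eq ?_)
    simp only [l]; field_simp
  let op : (ℝ →ᵇ ℝ) → (ℝ →ᵇ ℝ) := fun ψ =>
    BoundedContinuousFunction.ofNormedAddCommGroup
      (fun x => Real.exp (-(l * x)) * s x +
        ∫ σ in (0 : ℝ)..T, Real.exp (-(l * σ)) * (K x σ * ψ (x - σ)))
      (hw.add (hint ψ)) (C + ‖ψ‖ / 2) (fun x => by
        refine (norm_add_le _ _).trans (add_le_add (hC x) ?_)
        exact hbd ψ ‖ψ‖ x (norm_nonneg _) fun y _ => ψ.norm_coe_le_norm y)
  have hop : ∀ (ψ : ℝ →ᵇ ℝ) (x : ℝ), op ψ x = Real.exp (-(l * x)) * s x +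
        ∫ σ in (0 : ℝ)..T, Real.exp (-(l * σ)) * (K x σ * ψ (x - σ)) := fun _ _ => rfl
  have hii : ∀ (ψ : ℝ →ᵇ ℝ) (x : ℝ), IntervalIntegrable
      (fun σ => Real.exp (-(l * σ)) * (K x σ * ψ (x - σ))) volume 0 T := by
    intro ψ x
    apply Continuous.intervalIntegrable
    have h1 : Continuous fun σ : ℝ => K x σ :=
      hK.comp (by fun_prop : Continuous fun σ : ℝ => ((x, σ) : ℝ × ℝ))
    have h2 : Continuous fun σ : ℝ => ψ (x - σ) := ψ.continuous.comp (by fun_prop)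
    exact (by fun_prop : Continuous fun σ : ℝ => Real.exp (-(l * σ))).mul (h1.mul h2)
  have hcon : ContractingWith (1 / 2 : ℝ≥0) op := by
    refine ⟨by
      rw [← NNReal.coe_lt_coe]
      norm_num, LipschitzWith.of_dist_le_mul fun ψ φ => ?_⟩
    rw [BoundedContinuousFunction.dist_le (by positivity)]
    intro x
    rw [Real.dist_eq, hop, hop]
    have h1 : Real.exp (-(l * x)) * s x +
        (∫ σ in (0 : ℝ)..T, Real.exp (-(l * σ)) * (K x σ * ψ (x - σ))) -
        (Real.exp (-(l * x)) * s x +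
        ∫ σ in (0 : ℝ)..T, Real.exp (-(l * σ)) * (K x σ * φ (x - σ))) =
        ∫ σ in (0 : ℝ)..T, Real.exp (-(l * σ)) * (K x σ * (fun y => ψ y - φ y) (x - σ)) := by
      rw [add_sub_add_left_eq_sub, ← intervalIntegral.integral_sub (hii ψ x) (hii φ x)]
      congr 1
      funext σ
      ring
    rw [h1]
    refine (hbd (fun y => ψ y - φ y) (dist ψ φ) x dist_nonneg fun y _ => ?_).trans (le_of_eq ?_)
    · rw [← Real.dist_eq]
      exact BoundedContinuousFunction.dist_coe_le_dist y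
    · push_cast; ring
  let φ : ℝ →ᵇ ℝ := ContractingWith.fixedPoint op hcon
  have hφ : op φ = φ := hcon.fixedPoint_isFixedPt
  have hφ' : ∀ x, φ x = Real.exp (-(l * x)) * s x +
        ∫ σ in (0 : ℝ)..T, Real.exp (-(l * σ)) * (K x σ * φ (x - σ)) := by
    intro x
    rw [← hop, hφ]
  have hz : ∀ n : ℕ, ∀ x ≤ a, |φ x| ≤ ‖φ‖ / 2 ^ n := by
    intro n
    induction n with
    | zero => intro x _; simpa using φ.norm_coe_le_norm x
    | succ n ih =>
      intro x hx
      rw [hφ' x, ha x hx, mul_zero, zero_add]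
      refine (hbd φ _ x (by positivity) fun y hy => ih y (hy.trans hx)).trans (le_of_eq ?_)
      rw [pow_succ]; field_simp
  have hz0 : ∀ x ≤ a, φ x = 0 := by
    intro x hx
    have h1 : Filter.Tendsto (fun n : ℕ => ‖φ‖ / 2 ^ n) Filter.atTop (nhds 0) := by
      have := (tendsto_pow_atTop_nhds_zero_of_lt_one (r := (1 / 2 : ℝ)) (by norm_num)
        (by norm_num)).const_mul ‖φ‖
      rw [mul_zero] at this
      refine this.congr fun n => ?_
      rw [one_div, inv_pow, div_eq_mul_inv]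
    have h2 : |φ x| ≤ 0 := ge_of_tendsto' h1 fun n => hz n x hx
    exact abs_nonpos_iff.1 h2
  refine ⟨fun x => Real.exp (l * x) * φ x, by fun_prop, fun x hx => by
    show Real.exp (l * x) * φ x = 0
    rw [hz0 x hx, mul_zero], fun x => ?_⟩
  change Real.exp (l * x) * φ x = _
  rw [hφ' x, mul_add, ← mul_assoc, ← Real.exp_add, add_neg_cancel, Real.exp_zero, one_mul]
  congr 1
  rw [← intervalIntegral.integral_const_mul]
  congr 1
  funext σ
  have : Real.exp (l * (x - σ)) = Real.exp (l * x) * Real.exp (-(l * σ)) := by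
    rw [← Real.exp_add]; congr 1; ring
  show _ = K x σ * (Real.exp (l * (x - σ)) * φ (x - σ))
  rw [this]
  ring

/-- **Volterra equations of the second kind.** -/
theorem volterra {K : ℝ → ℝ → ℝ} (hK : ContDiff ℝ ∞ (Function.uncurry K)) {s : ℝ → ℝ}
    (hs : ContDiff ℝ ∞ s) {a b : ℝ} (hab : a ≤ b) (hsa : ∀ x ≤ a, s x = 0) :
    ∃ ψ : ℝ → ℝ, ContDiff ℝ ∞ ψ ∧ (∀ x ≤ a, ψ x = 0) ∧
      ∀ x, x ≤ b → ψ x = s x + ∫ σ in (0 : ℝ)..(b - a), K x σ * ψ (x - σ) := by
  obtain ⟨κ, hκ1, hκc, hκs⟩ : ∃ κ : ℝ → ℝ, (∀ t ∈ Icc a b, κ t = 1) ∧ ContDiff ℝ ∞ κ ∧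
      HasCompactSupport κ := by
    let f : ContDiffBump ((a + b) / 2 : ℝ) := ⟨(b - a) / 2 + 1, (b - a) / 2 + 2, by linarith, by linarith⟩
    refine ⟨f, fun t ht => ?_, f.contDiff, f.hasCompactSupport⟩
    apply f.one_of_mem_closedBall
    rw [mem_closedBall, Real.dist_eq, abs_le]
    show -((b - a) / 2 + 1) ≤ _ ∧ _ ≤ (b - a) / 2 + 1
    constructor <;> linarith [ht.1, ht.2]
  have hT : 0 ≤ b - a := by linarith
  let K' : ℝ → ℝ → ℝ := fun x σ => κ x * K x σ
  have hK' : ContDiff ℝ ∞ (Function.uncurry K') := by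
    have h1 : ContDiff ℝ ∞ fun p : ℝ × ℝ => κ p.1 := hκc.comp contDiff_fst
    exact h1.mul hK
  obtain ⟨M, hM⟩ := (hκs.isCompact.prod (isCompact_Icc (a := (0 : ℝ)) (b := b - a))).exists_bound_of_continuousOn
    (f := Function.uncurry K') hK'.continuous.continuousOn
  have hM' : ∀ x, ∀ σ ∈ Icc 0 (b - a), |K' x σ| ≤ |M| + 1 := by
    intro x σ hσ
    by_cases hx : x ∈ tsupport κ
    · exact (hM (x, σ) ⟨hx, hσ⟩).trans (by linarith [le_abs_self M])
    · have : κ x = 0 := image_eq_zero_of_notMem_tsupport hx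
      simp only [K', this, zero_mul, abs_zero]; positivity
  obtain ⟨ψ, h1, h2, h3⟩ := exists_solution hK'.continuous (s := fun x => κ x * s x)
    (hκc.continuous.mul hs.continuous) hκs.mul_right hT (M := |M| + 1) (by positivity) hM'
    (a := a) (fun x hx => by rw [hsa x hx, mul_zero])
  refine ⟨ψ, contDiff_infty.2 fun n => contDiff_of_eq hK' (hκc.mul hs) hT h1 h3 n, h2, ?_⟩
  intro x hxb
  rcases le_or_gt a x with hx | hx
  · rw [h3 x]
    have : κ x = 1 := hκ1 x ⟨hx, hxb⟩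
    simp only [K', this, one_mul]
  · rw [h2 x hx.le, hsa x hx.le, zero_add]
    symm
    rw [intervalIntegral.integral_of_le hT]
    apply setIntegral_eq_zero_of_forall_eq_zero
    intro σ hσ
    rw [h2 (x - σ) (by linarith [hσ.1]), mul_zero]

end Pool.Agent.U612.MR
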